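import Mathlib

/-!
# Packings of unit balls cut from the face-centred cubic lattice

Integer coordinates: the triple `(u, v, z)` with `u ≡ v ≡ z (mod 2)` stands for the point
`(u, v, √2 z)` of space.  These points form a face-centred cubic lattice of minimal distance `2`.
-/

set_option autoImplicit false

namespace Pool.Agent.Q135.Fcc

open Finset Metric

/-- Euclidean three-space. -/
abbrev E3 := EuclideanSpace ℝ (Fin 3)

/-- The unit balls centred at the points of `P` form a packing: the interiors of any two of them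
are disjoint. -/
def IsPacking (P : Finset E3) : Prop :=
  (P : Set E3).Pairwise fun x y =>
    Disjoint (interior (closedBall x 1)) (interior (closedBall y 1))

open Classical in
/-- The number of unordered sets of `r` balls of the packing `P` that touch pairwise. -/
noncomputable def touching (r : ℕ) (P : Finset E3) : ℕ :=
  ((P.powersetCard r).filter fun s : Finset E3 =>
    ∀ x ∈ s, ∀ y ∈ s, x ≠ y → dist x y = 2).card

/-- Integer coordinates. -/
abbrev Z3 := ℤ × ℤ × ℤ

/-- The squared distance in integer coordinates. -/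
def sq (p q : Z3) : ℤ := (p.1 - q.1) ^ 2 + (p.2.1 - q.2.1) ^ 2 + 2 * (p.2.2 - q.2.2) ^ 2

/-- The sets of `r` pairwise touching lattice points of `S`. -/
def cliques (r : ℕ) (S : Finset Z3) : Finset (Finset Z3) :=
  (S.powersetCard r).filter fun s => ∀ x ∈ s, ∀ y ∈ s, x ≠ y → sq x y = 4

/-- The embedding into space. -/
noncomputable def emb (p : Z3) : E3 := !₂[(p.1 : ℝ), (p.2.1 : ℝ), √2 * (p.2.2 : ℝ)]

lemma dist_emb (p q : Z3) : dist (emb p) (emb q) ^ 2 = (sq p q : ℝ) := by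
  have h2 : √2 ^ 2 = (2 : ℝ) := Real.sq_sqrt (by norm_num)
  rw [EuclideanSpace.dist_eq, Real.sq_sqrt (Finset.sum_nonneg fun i _ => sq_nonneg _)]
  simp only [Fin.sum_univ_three, emb, sq, Real.dist_eq, sq_abs]
  simp only [Matrix.cons_val_zero, Matrix.cons_val_one, Matrix.cons_val]
  push_cast
  linear_combination ((p.2.2 : ℝ) - q.2.2) ^ 2 * h2

lemma emb_inj : Function.Injective emb := by
  intro p q h
  have h0 : (sq p q : ℝ) = 0 := by rw [← dist_emb, h, dist_self]; norm_num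
  have h1 : sq p q = 0 := by exact_mod_cast h0
  unfold sq at h1
  have ha : (p.1 - q.1) ^ 2 = 0 := by
    nlinarith [sq_nonneg (p.1 - q.1), sq_nonneg (p.2.1 - q.2.1), sq_nonneg (p.2.2 - q.2.2)]
  have hb : (p.2.1 - q.2.1) ^ 2 = 0 := by
    nlinarith [sq_nonneg (p.1 - q.1), sq_nonneg (p.2.1 - q.2.1), sq_nonneg (p.2.2 - q.2.2)]
  have hc : (p.2.2 - q.2.2) ^ 2 = 0 := by
    nlinarith [sq_nonneg (p.1 - q.1), sq_nonneg (p.2.1 - q.2.1), sq_nonneg (p.2.2 - q.2.2)]
  have ha' := pow_eq_zero_iff (two_ne_zero) |>.1 ha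
  have hb' := pow_eq_zero_iff (two_ne_zero) |>.1 hb
  have hc' := pow_eq_zero_iff (two_ne_zero) |>.1 hc
  ext <;> [omega; omega; omega]

lemma dist_emb_two {p q : Z3} (h : sq p q = 4) : dist (emb p) (emb q) = 2 := by
  have h1 : dist (emb p) (emb q) ^ 2 = 2 ^ 2 := by rw [dist_emb, h]; norm_num
  exact (pow_left_inj₀ dist_nonneg (by norm_num) two_ne_zero).1 h1

lemma two_le_dist_emb {p q : Z3} (h : 4 ≤ sq p q) : 2 ≤ dist (emb p) (emb q) := by
  have h1 : (2 : ℝ) ^ 2 ≤ dist (emb p) (emb q) ^ 2 := by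
    rw [dist_emb]
    have : (4 : ℝ) ≤ (sq p q : ℝ) := by exact_mod_cast h
    linarith
  exact (pow_le_pow_iff_left₀ (by norm_num) dist_nonneg two_ne_zero).1 h1

lemma isPacking_emb {S : Finset Z3} (hS : ∀ x ∈ S, ∀ y ∈ S, x ≠ y → 4 ≤ sq x y) :
    IsPacking (S.image emb) := by
  intro x hx y hy hxy
  simp only [coe_image, Set.mem_image, mem_coe] at hx hy
  obtain ⟨p, hp, rfl⟩ := hx
  obtain ⟨q, hq, rfl⟩ := hy
  have hpq : p ≠ q := fun h => hxy (by rw [h])
  rw [interior_closedBall _ one_ne_zero, interior_closedBall _ one_ne_zero]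
  apply Metric.ball_disjoint_ball
  have := two_le_dist_emb (hS p hp q hq hpq)
  linarith

lemma card_emb (S : Finset Z3) : (S.image emb).card = S.card :=
  card_image_of_injective _ emb_inj

lemma cliques_le_touching (r : ℕ) (S : Finset Z3) :
    (cliques r S).card ≤ touching r (S.image emb) := by
  classical
  unfold touching
  apply Finset.card_le_card_of_injOn (fun s => s.image emb)
  · intro s hs
    have hs := Finset.mem_filter.1 (Finset.mem_coe.1 hs)
    rw [mem_powersetCard] at hs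
    refine Finset.mem_coe.2 (Finset.mem_filter.2 ?_)
    rw [mem_powersetCard]
    refine ⟨⟨image_subset_image hs.1.1, by rw [card_emb, hs.1.2]⟩, ?_⟩
    intro x hx y hy hxy
    obtain ⟨p, hp, rfl⟩ := Finset.mem_image.1 hx
    obtain ⟨q, hq, rfl⟩ := Finset.mem_image.1 hy
    exact dist_emb_two (hs.2 p hp q hq fun h => hxy (by rw [h]))
  · intro s _ t _ hst
    exact Finset.image_injective emb_inj hst

/-- The lattice. -/
def Lat (p : Z3) : Prop := p.1 % 2 = p.2.2 % 2 ∧ p.2.1 % 2 = p.2.2 % 2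

lemma four_le_sq {p q : Z3} (hp : Lat p) (hq : Lat q) (hpq : p ≠ q) : 4 ≤ sq p q := by
  obtain ⟨a, b, c⟩ := p
  obtain ⟨a', b', c'⟩ := q
  simp only [Lat, sq, ne_eq, Prod.mk.injEq, not_and] at *
  obtain ⟨x, hx⟩ : ∃ x, x = a - a' := ⟨_, rfl⟩
  obtain ⟨y, hy⟩ : ∃ x, x = b - b' := ⟨_, rfl⟩
  obtain ⟨z, hz⟩ : ∃ x, x = c - c' := ⟨_, rfl⟩
  rw [← hx, ← hy, ← hz]
  have h1 : x % 2 = z % 2 := by omega
  have h2 : y % 2 = z % 2 := by omega
  rcases Int.emod_two_eq_zero_or_one z with h | h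
  · obtain ⟨x1, hx1⟩ : ∃ x1, x = 2 * x1 := ⟨x / 2, by omega⟩
    obtain ⟨y1, hy1⟩ : ∃ y1, y = 2 * y1 := ⟨y / 2, by omega⟩
    obtain ⟨z1, hz1⟩ : ∃ z1, z = 2 * z1 := ⟨z / 2, by omega⟩
    have h3 : x1 ≠ 0 ∨ y1 ≠ 0 ∨ z1 ≠ 0 := by
      by_contra hc
      push Not at hc
      exact absurd (by omega : c = c') (hpq (by omega) (by omega))
    subst hx1 hy1 hz1
    rcases h3 with h3 | h3 | h3
    · have : 1 ≤ x1 ^ 2 := by
        have := sq_nonneg x1
        have h4 : x1 ^ 2 ≠ 0 := pow_ne_zero 2 h3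
        omega
      nlinarith [sq_nonneg y1, sq_nonneg z1]
    · have : 1 ≤ y1 ^ 2 := by
        have := sq_nonneg y1
        have h4 : y1 ^ 2 ≠ 0 := pow_ne_zero 2 h3
        omega
      nlinarith [sq_nonneg x1, sq_nonneg z1]
    · have : 1 ≤ z1 ^ 2 := by
        have := sq_nonneg z1
        have h4 : z1 ^ 2 ≠ 0 := pow_ne_zero 2 h3
        omega
      nlinarith [sq_nonneg x1, sq_nonneg y1]
  · have hx0 : x ≠ 0 := by omega
    have hy0 : y ≠ 0 := by omega
    have hz0 : z ≠ 0 := by omega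
    have a1 : 1 ≤ x ^ 2 := by
      have := sq_nonneg x
      have h4 : x ^ 2 ≠ 0 := pow_ne_zero 2 hx0
      omega
    have a2 : 1 ≤ y ^ 2 := by
      have := sq_nonneg y
      have h4 : y ^ 2 ≠ 0 := pow_ne_zero 2 hy0
      omega
    have a3 : 1 ≤ z ^ 2 := by
      have := sq_nonneg z
      have h4 : z ^ 2 ≠ 0 := pow_ne_zero 2 hz0
      omega
    linarith

end Pool.Agent.Q135.Fcc
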