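import Pool.Agent.Q135.Fcc.Tri

set_option autoImplicit false

namespace Pool.Agent.Q135.Fcc

open Finset

/-- The indices of the four triangles at the vertex `(0, 0, 0)`. -/
def bad (m : ℕ) : Finset Idx :=
  {⟨(1, 1, m - 1), (0, 0)⟩, ⟨(1, 3, m - 1), (0, 0)⟩, ⟨(-1, 1, m - 1), (0, 0)⟩,
    ⟨(-1, 3, m - 1), (0, 0)⟩}

lemma card_bad (m : ℕ) : (bad m).card ≤ 4 := by
  unfold bad
  exact Finset.card_le_four

lemma mem_bad {m : ℕ} {x : Idx} (hx : x ∈ idx m) (h : (0, 0, 0) ∈ tri m x) : x ∈ bad m := by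
  rw [mem_idx] at hx
  obtain ⟨⟨s, t, j⟩, a, b⟩ := x
  obtain ⟨⟨hs, ht, hj, hjm⟩, ha, hb⟩ := hx
  simp only at hs ht hj hjm ha hb
  clear ha hb
  have hk : (s = 1 ∨ s = -1) ∧ (t = 1 ∨ t = 3) ∧ j = m - 1 ∧ a = 0 ∧ b = 0 := by
    unfold tri V1 V2 V3 at h
    simp only [mem_insert, mem_singleton] at h
    refine ⟨hs, ?_⟩
    rcases hs with rfl | rfl <;> interval_cases t <;>
      simp [off2, off3, pt, Prod.ext_iff] at h ⊢ <;> omega
  obtain ⟨rfl | rfl, rfl | rfl, rfl, rfl, rfl⟩ := hk <;> simp [bad]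

/-- The new triangles. -/
def new3 : Finset (Finset Z3) :=
  ((base ∪ extra).powersetCard 3).filter fun s =>
    (∀ x ∈ s, ∀ y ∈ s, x ≠ y → sq x y = 4) ∧ ∃ x ∈ s, x ∈ extra

lemma card_new3 : new3.card = 13 := by decide +kernel

lemma body_sep {m : ℕ} : ∀ x ∈ body m, ∀ y ∈ body m, x ≠ y → 4 ≤ sq x y :=
  fun _ hx _ hy hxy => four_le_sq (lat_body hx) (lat_body hy) hxy

lemma base_extra_subset {m : ℕ} (hm : 3 ≤ m) : base ∪ extra ⊆ body m := by
  unfold body
  exact Finset.union_subset_union (base_subset hm) subset_rfl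

lemma count3 {m : ℕ} (hm : 3 ≤ m) : (idx m).card + 9 ≤ (cliques 3 (body m)).card := by
  have h1 : (idx m).card ≤ (idx m \ bad m).card + 4 := by
    have := Finset.card_le_card_sdiff_add_card (s := idx m) (t := bad m)
    have := card_bad m
    omega
  have hinj : Set.InjOn (tri m) (idx m \ bad m : Finset Idx) := by
    intro x hx y hy hxy
    have hx' := (mem_sdiff.1 (mem_coe.1 hx)).1
    have hy' := (mem_sdiff.1 (mem_coe.1 hy)).1
    apply tri_inj hx' hy'
    rw [← sum_tri hx', ← sum_tri hy', hxy]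
  have h2 : ((idx m \ bad m).image (tri m)).card = (idx m \ bad m).card :=
    card_image_of_injOn hinj
  have hdisj : Disjoint ((idx m \ bad m).image (tri m)) new3 := by
    rw [Finset.disjoint_left]
    intro s hs hs'
    obtain ⟨x, hx, rfl⟩ := mem_image.1 hs
    obtain ⟨-, -, p, hp, hpe⟩ := mem_filter.1 hs'
    exact extra_not_mem hpe (tri_subset (mem_sdiff.1 hx).1 hp)
  have hsub : (idx m \ bad m).image (tri m) ∪ new3 ⊆ cliques 3 (body m) := by
    intro s hs
    rw [mem_union] at hs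
    unfold cliques
    rw [mem_filter, mem_powersetCard]
    rcases hs with hs | hs
    · obtain ⟨x, hx, rfl⟩ := mem_image.1 hs
      have hx' := mem_sdiff.1 hx
      refine ⟨⟨?_, card_tri hx'.1⟩, tri_adj hx'.1⟩
      intro p hp
      unfold body
      rw [mem_union, mem_erase]
      refine Or.inl ⟨?_, tri_subset hx'.1 hp⟩
      rintro rfl
      exact hx'.2 (mem_bad hx'.1 hp)
    · have hs' := mem_filter.1 hs
      rw [mem_powersetCard] at hs'
      exact ⟨⟨hs'.1.1.trans (base_extra_subset hm), hs'.1.2⟩, hs'.2.1⟩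
  have h3 := Finset.card_le_card hsub
  rw [card_union_of_disjoint hdisj, h2, card_new3] at h3
  omega

lemma sum_tri_card (n : ℕ) :
    3 * ∑ j ∈ Ico 1 (n + 1), 2 * (4 * (j + 1) ^ 2 + 4 * (j * (j + 1))) + 24 =
      4 * (n + 1) * (n + 2) * (4 * n + 3) := by
  induction n with
  | zero => simp
  | succ n ih =>
    rw [Finset.sum_Ico_succ_top (by omega), mul_add]
    nlinarith [ih]

/-- The number of touching triplets of the body exceeds the one of the octahedron. -/
lemma touching3 {m : ℕ} (hm : 3 ≤ m) :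
    4 * m * (m + 1) * (4 * m - 1 : ℤ) + 3 ≤ 3 * (touching 3 ((body m).image emb) : ℤ) := by
  have h := (count3 hm).trans (cliques_le_touching 3 (body m))
  obtain ⟨n, rfl⟩ : ∃ n, m = n + 1 := ⟨m - 1, by omega⟩
  have h2 := sum_tri_card n
  rw [← card_idx] at h2
  have h3 : 3 * (idx (n + 1)).card + 27 ≤ 3 * touching 3 ((body (n + 1)).image emb) := by omega
  zify at h2 h3 ⊢
  linarith

end Pool.Agent.Q135.Fcc
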