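import Pool.Agent.Q135.Fcc.Count3

set_option autoImplicit false

namespace Pool.Agent.Q135.Fcc

open Finset

/-- The index set of the tetrahedra. -/
def idx4 (m : ℕ) : Finset Idx :=
  (({1, -1} : Finset ℤ) ×ˢ (range 2 ×ˢ Ico 1 m)).sigma
    fun x => range (if x.2.1 = 0 then x.2.2 else x.2.2 + 1) ×ˢ
      range (if x.2.1 = 0 then x.2.2 + 1 else x.2.2)

def W2 (m : ℕ) (x : Idx) : Z3 :=
  if x.1.2.1 = 0 then pt m x.1.1 x.1.2.2 (x.2.1 + 1) x.2.2
  else pt m x.1.1 x.1.2.2 x.2.1 (x.2.2 + 1)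
def W3 (m : ℕ) (x : Idx) : Z3 :=
  if x.1.2.1 = 0 then pt m x.1.1 (x.1.2.2 + 1) (x.2.1 + 1) x.2.2
  else pt m x.1.1 (x.1.2.2 + 1) x.2.1 (x.2.2 + 1)
def W4 (m : ℕ) (x : Idx) : Z3 := pt m x.1.1 (x.1.2.2 + 1) (x.2.1 + 1) (x.2.2 + 1)

def tet (m : ℕ) (x : Idx) : Finset Z3 := {V1 m x, W2 m x, W3 m x, W4 m x}

lemma mem_idx4 {m : ℕ} {x : Idx} : x ∈ idx4 m ↔ ((x.1.1 = 1 ∨ x.1.1 = -1) ∧ x.1.2.1 < 2 ∧
    1 ≤ x.1.2.2 ∧ x.1.2.2 < m) ∧ x.2.1 < (if x.1.2.1 = 0 then x.1.2.2 else x.1.2.2 + 1) ∧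
      x.2.2 < (if x.1.2.1 = 0 then x.1.2.2 + 1 else x.1.2.2) := by
  simp only [idx4, mem_sigma, mem_product, mem_insert, mem_singleton, mem_range, mem_Ico]

lemma card_idx4 (m : ℕ) : (idx4 m).card = ∑ j ∈ Ico 1 m, 2 * (2 * (j * (j + 1))) := by
  unfold idx4
  rw [card_sigma, sum_product]
  simp only [sum_product, card_product, card_range]
  rw [Finset.sum_pair (by decide)]
  simp only [Finset.sum_range_succ, Finset.sum_range_zero]
  simp only [← Finset.sum_add_distrib, zero_add]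
  apply Finset.sum_congr rfl
  intro j _
  simp
  ring

lemma tet_spec {m : ℕ} {x : Idx} (hx : x ∈ idx4 m) :
    (V1 m x ∈ trunk m ∧ W2 m x ∈ trunk m ∧ W3 m x ∈ trunk m ∧ W4 m x ∈ trunk m) ∧
      (V1 m x ≠ (0, 0, 0) ∧ W2 m x ≠ (0, 0, 0) ∧ W3 m x ≠ (0, 0, 0) ∧ W4 m x ≠ (0, 0, 0)) ∧
      sq (V1 m x) (W2 m x) = 4 ∧ sq (V1 m x) (W3 m x) = 4 ∧ sq (V1 m x) (W4 m x) = 4 ∧
      sq (W2 m x) (W3 m x) = 4 ∧ sq (W2 m x) (W4 m x) = 4 ∧ sq (W3 m x) (W4 m x) = 4 := by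
  rw [mem_idx4] at hx
  obtain ⟨⟨s, t, j⟩, a, b⟩ := x
  obtain ⟨⟨hs, ht, hj, hjm⟩, ha, hb⟩ := hx
  simp only at hs ht hj hjm ha hb
  unfold V1 W2 W3 W4
  simp only
  have key : ∀ c d e : ℕ, 1 ≤ c → c ≤ m → d ≤ c → e ≤ c → pt m s c d e ∈ trunk m :=
    fun c d e h1 h2 h3 h4 => pt_mem_trunk hs h1 h2 h3 h4
  have hs2 : s ^ 2 = 1 := by rcases hs with rfl | rfl <;> norm_num
  interval_cases t
  · simp only [if_true] at ha hb ⊢
    refine ⟨⟨?_, ?_, ?_, ?_⟩, ⟨?_, ?_, ?_, ?_⟩, ?_⟩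
    · apply key <;> omega
    · apply key <;> omega
    · apply key <;> omega
    · apply key <;> omega
    · simp only [pt, ne_eq, Prod.mk.injEq]; omega
    · simp only [pt, ne_eq, Prod.mk.injEq]; omega
    · simp only [pt, ne_eq, Prod.mk.injEq]; omega
    · simp only [pt, ne_eq, Prod.mk.injEq]; omega
    · simp only [pt, sq]
      push_cast
      refine ⟨?_, ?_, ?_, ?_, ?_, ?_⟩ <;> first | ring1 | linear_combination 2 * hs2
  · simp only [one_ne_zero, if_false] at ha hb ⊢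
    refine ⟨⟨?_, ?_, ?_, ?_⟩, ⟨?_, ?_, ?_, ?_⟩, ?_⟩
    · apply key <;> omega
    · apply key <;> omega
    · apply key <;> omega
    · apply key <;> omega
    · simp only [pt, ne_eq, Prod.mk.injEq]; omega
    · simp only [pt, ne_eq, Prod.mk.injEq]; omega
    · simp only [pt, ne_eq, Prod.mk.injEq]; omega
    · simp only [pt, ne_eq, Prod.mk.injEq]; omega
    · simp only [pt, sq]
      push_cast
      refine ⟨?_, ?_, ?_, ?_, ?_, ?_⟩ <;> first | ring1 | linear_combination 2 * hs2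

lemma sum_tet {m : ℕ} {x : Idx} (hx : x ∈ idx4 m) :
    (tet m x).sum id = V1 m x + W2 m x + W3 m x + W4 m x := by
  obtain ⟨-, -, h12, h13, h14, h23, h24, h34⟩ := tet_spec hx
  unfold tet
  rw [Finset.sum_insert, Finset.sum_insert, Finset.sum_pair (ne_of_sq h34)]
  · simp only [id, add_assoc]
  · simp only [mem_insert, mem_singleton, not_or]
    exact ⟨ne_of_sq h23, ne_of_sq h24⟩
  · simp only [mem_insert, mem_singleton, not_or]
    exact ⟨ne_of_sq h12, ne_of_sq h13, ne_of_sq h14⟩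

lemma card_tet {m : ℕ} {x : Idx} (hx : x ∈ idx4 m) : (tet m x).card = 4 := by
  obtain ⟨-, -, h12, h13, h14, h23, h24, h34⟩ := tet_spec hx
  unfold tet
  rw [Finset.card_insert_of_notMem, Finset.card_insert_of_notMem,
    Finset.card_pair (ne_of_sq h34)]
  · simp only [mem_insert, mem_singleton, not_or]
    exact ⟨ne_of_sq h23, ne_of_sq h24⟩
  · simp only [mem_insert, mem_singleton, not_or]
    exact ⟨ne_of_sq h12, ne_of_sq h13, ne_of_sq h14⟩

lemma tet_adj {m : ℕ} {x : Idx} (hx : x ∈ idx4 m) :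
    ∀ p ∈ tet m x, ∀ q ∈ tet m x, p ≠ q → sq p q = 4 := by
  obtain ⟨-, -, h12, h13, h14, h23, h24, h34⟩ := tet_spec hx
  have h21 := h12; have h31 := h13; have h32 := h23
  have h41 := h14; have h42 := h24; have h43 := h34
  rw [sq_symm] at h21 h31 h32 h41 h42 h43
  intro p hp q hq hpq
  simp only [tet, mem_insert, mem_singleton] at hp hq
  rcases hp with rfl | rfl | rfl | rfl <;> rcases hq with rfl | rfl | rfl | rfl <;>
    first | exact absurd rfl hpq | assumption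

lemma tet_subset {m : ℕ} {x : Idx} (hx : x ∈ idx4 m) : tet m x ⊆ (trunk m).erase (0, 0, 0) := by
  obtain ⟨⟨h1, h2, h3, h4⟩, ⟨g1, g2, g3, g4⟩, -⟩ := tet_spec hx
  intro p hp
  rw [mem_erase]
  simp only [tet, mem_insert, mem_singleton] at hp
  rcases hp with rfl | rfl | rfl | rfl <;> constructor <;> assumption

lemma tet_inj {m : ℕ} {x y : Idx} (hx : x ∈ idx4 m) (hy : y ∈ idx4 m)
    (h : V1 m x + W2 m x + W3 m x + W4 m x = V1 m y + W2 m y + W3 m y + W4 m y) : x = y := by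
  rw [mem_idx4] at hx hy
  obtain ⟨⟨s, t, j⟩, a, b⟩ := x
  obtain ⟨⟨s', t', j'⟩, a', b'⟩ := y
  obtain ⟨⟨hs, ht, hj, hjm⟩, ha, hb⟩ := hx
  obtain ⟨⟨hs', ht', hj', hjm'⟩, ha', hb'⟩ := hy
  simp only at hs ht hj hjm ha hb hs' ht' hj' hjm' ha' hb'
  suffices hh : s = s' ∧ t = t' ∧ j = j' ∧ a = a' ∧ b = b' by
    obtain ⟨rfl, rfl, rfl, rfl, rfl⟩ := hh; rfl
  unfold V1 W2 W3 W4 at h
  simp only at h
  clear ha hb ha' hb'
  rcases hs with rfl | rfl <;> rcases hs' with rfl | rfl <;>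
  interval_cases t <;> interval_cases t' <;>
  simp [pt] at h ⊢ <;> omega

/-- The new tetrahedra. -/
def new4 : Finset (Finset Z3) :=
  ((base ∪ extra).powersetCard 4).filter fun s =>
    (∀ x ∈ s, ∀ y ∈ s, x ≠ y → sq x y = 4) ∧ ∃ x ∈ s, x ∈ extra

lemma card_new4 : new4.card = 3 := by decide +kernel

lemma count4 {m : ℕ} (hm : 3 ≤ m) : (idx4 m).card + 3 ≤ (cliques 4 (body m)).card := by
  have hinj : Set.InjOn (tet m) (idx4 m : Finset Idx) := by
    intro x hx y hy hxy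
    have hx' := mem_coe.1 hx
    have hy' := mem_coe.1 hy
    apply tet_inj hx' hy'
    rw [← sum_tet hx', ← sum_tet hy', hxy]
  have h2 : ((idx4 m).image (tet m)).card = (idx4 m).card :=
    card_image_of_injOn hinj
  have hdisj : Disjoint ((idx4 m).image (tet m)) new4 := by
    rw [Finset.disjoint_left]
    intro s hs hs'
    obtain ⟨x, hx, rfl⟩ := mem_image.1 hs
    obtain ⟨-, -, p, hp, hpe⟩ := mem_filter.1 hs'
    exact extra_not_mem hpe (mem_of_mem_erase (tet_subset hx hp))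
  have hsub : (idx4 m).image (tet m) ∪ new4 ⊆ cliques 4 (body m) := by
    intro s hs
    rw [mem_union] at hs
    unfold cliques
    rw [mem_filter, mem_powersetCard]
    rcases hs with hs | hs
    · obtain ⟨x, hx, rfl⟩ := mem_image.1 hs
      refine ⟨⟨?_, card_tet hx⟩, tet_adj hx⟩
      intro p hp
      unfold body
      exact mem_union_left _ (tet_subset hx hp)
    · have hs' := mem_filter.1 hs
      rw [mem_powersetCard] at hs'
      exact ⟨⟨hs'.1.1.trans (base_extra_subset hm), hs'.1.2⟩, hs'.2.1⟩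
  have h3 := Finset.card_le_card hsub
  rw [card_union_of_disjoint hdisj, h2, card_new4] at h3
  omega

lemma sum_tet_card (n : ℕ) :
    3 * ∑ j ∈ Ico 1 (n + 1), 2 * (2 * (j * (j + 1))) = 4 * n * (n + 1) * (n + 2) := by
  induction n with
  | zero => simp
  | succ n ih =>
    rw [Finset.sum_Ico_succ_top (by omega), mul_add]
    nlinarith [ih]

lemma touching4 {m : ℕ} (hm : 3 ≤ m) :
    4 * (m - 1) * m * (m + 1 : ℤ) + 9 ≤ 3 * (touching 4 ((body m).image emb) : ℤ) := by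
  have h := (count4 hm).trans (cliques_le_touching 4 (body m))
  obtain ⟨n, rfl⟩ : ∃ n, m = n + 1 := ⟨m - 1, by omega⟩
  have h2 := sum_tet_card n
  rw [← card_idx4] at h2
  have h3 : 3 * (idx4 (n + 1)).card + 9 ≤ 3 * touching 4 ((body (n + 1)).image emb) := by omega
  zify at h2 h3 ⊢
  linarith

end Pool.Agent.Q135.Fcc
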