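import Pool.Agent.Q135.Fcc.Core

set_option autoImplicit false

namespace Pool.Agent.Q135.Fcc

open Finset

/-- The point number `(a, b)` of the square layer of side `j + 1` at height `± (m - j)`. -/
def pt (m : ℕ) (s : ℤ) (j a b : ℕ) : Z3 :=
  ((m : ℤ) - j + 2 * a, (m : ℤ) - j + 2 * b, s * ((m : ℤ) - j))

lemma lat_pt {m : ℕ} {s : ℤ} (hs : s = 1 ∨ s = -1) (j a b : ℕ) : Lat (pt m s j a b) := by
  rcases hs with rfl | rfl <;> constructor <;> simp only [pt] <;> omega

/-- All layers but those of side one. -/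
def upper (m : ℕ) (s : ℤ) : Finset Z3 :=
  ((Ico 1 m).sigma fun j => range (j + 1) ×ˢ range (j + 1)).image
    fun x => pt m s x.1 x.2.1 x.2.2

def middle (m : ℕ) : Finset Z3 :=
  (range (m + 1) ×ˢ range (m + 1)).image fun x => pt m 1 m x.1 x.2

def trunk (m : ℕ) : Finset Z3 := middle m ∪ (upper m 1 ∪ upper m (-1))

lemma exists_of_mem_trunk {m : ℕ} {p : Z3} (hp : p ∈ trunk m) :
    ∃ s : ℤ, (s = 1 ∨ s = -1) ∧ ∃ j a b : ℕ, j ≤ m ∧ a ≤ j ∧ b ≤ j ∧ p = pt m s j a b := by
  simp only [trunk, mem_union] at hp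
  rcases hp with hp | hp | hp
  · obtain ⟨x, hx, rfl⟩ := Finset.mem_image.1 hp
    rw [mem_product, mem_range, mem_range] at hx
    exact ⟨1, Or.inl rfl, m, x.1, x.2, le_rfl, by omega, by omega, rfl⟩
  · obtain ⟨x, hx, rfl⟩ := Finset.mem_image.1 hp
    rw [mem_sigma, mem_product, mem_range, mem_range, mem_Ico] at hx
    exact ⟨1, Or.inl rfl, x.1, x.2.1, x.2.2, by omega, by omega, by omega, rfl⟩
  · obtain ⟨x, hx, rfl⟩ := Finset.mem_image.1 hp
    rw [mem_sigma, mem_product, mem_range, mem_range, mem_Ico] at hx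
    exact ⟨-1, Or.inr rfl, x.1, x.2.1, x.2.2, by omega, by omega, by omega, rfl⟩

lemma pt_mem_trunk {m : ℕ} {s : ℤ} (hs : s = 1 ∨ s = -1) {j a b : ℕ} (h1 : 1 ≤ j) (hj : j ≤ m)
    (ha : a ≤ j) (hb : b ≤ j) : pt m s j a b ∈ trunk m := by
  simp only [trunk, mem_union]
  rcases hj.eq_or_lt with rfl | hj
  · left
    refine Finset.mem_image.2 ⟨(a, b), ?_, ?_⟩
    · rw [mem_product, mem_range, mem_range]
      exact ⟨by simp only; omega, by simp only; omega⟩
    · simp [pt]
  · right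
    rcases hs with rfl | rfl
    · left
      refine Finset.mem_image.2 ⟨⟨j, (a, b)⟩, ?_, rfl⟩
      rw [mem_sigma, mem_product, mem_range, mem_range, mem_Ico]
      exact ⟨⟨h1, hj⟩, by simp only; omega, by simp only; omega⟩
    · right
      refine Finset.mem_image.2 ⟨⟨j, (a, b)⟩, ?_, rfl⟩
      rw [mem_sigma, mem_product, mem_range, mem_range, mem_Ico]
      exact ⟨⟨h1, hj⟩, by simp only; omega, by simp only; omega⟩

lemma card_middle (m : ℕ) : (middle m).card = (m + 1) ^ 2 := by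
  unfold middle
  rw [card_image_of_injOn, card_product, card_range, pow_two]
  intro x _ y _ hxy
  simp only [pt, Prod.mk.injEq] at hxy
  ext <;> omega

lemma card_upper (m : ℕ) {s : ℤ} (hs : s = 1 ∨ s = -1) :
    (upper m s).card = ∑ j ∈ Ico 1 m, (j + 1) ^ 2 := by
  unfold upper
  rw [card_image_of_injOn, card_sigma]
  · simp only [card_product, card_range, pow_two]
  · rintro ⟨j, a, b⟩ hx ⟨j', a', b'⟩ hy hxy
    simp only [coe_sigma, Set.mem_sigma_iff, coe_Ico, Set.mem_Ico] at hx hy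
    have hxy' : pt m s j a b = pt m s j' a' b' := hxy
    simp only [pt, Prod.mk.injEq] at hxy'
    have hj : j = j' := by
      rcases hs with rfl | rfl <;> omega
    subst hj
    have ha : a = a' := by omega
    have hb : b = b' := by omega
    subst ha hb
    rfl

lemma zcoord_middle {m : ℕ} {p : Z3} (hp : p ∈ middle m) : p.2.2 = 0 := by
  obtain ⟨x, _, rfl⟩ := Finset.mem_image.1 hp
  simp [pt]

lemma zcoord_upper {m : ℕ} {s : ℤ} {p : Z3} (hp : p ∈ upper m s) :
    ∃ t : ℤ, 0 < t ∧ p.2.2 = s * t := by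
  obtain ⟨x, hx, rfl⟩ := Finset.mem_image.1 hp
  rw [mem_sigma, mem_Ico] at hx
  exact ⟨(m : ℤ) - x.1, by omega, rfl⟩

lemma card_trunk (m : ℕ) :
    (trunk m).card = (m + 1) ^ 2 + 2 * ∑ j ∈ Ico 1 m, (j + 1) ^ 2 := by
  unfold trunk
  rw [card_union_of_disjoint, card_union_of_disjoint, card_middle,
    card_upper m (Or.inl rfl), card_upper m (Or.inr rfl)]
  · ring
  · rw [Finset.disjoint_left]
    intro p h1 h2
    obtain ⟨t, ht, h⟩ := zcoord_upper h1
    obtain ⟨t', ht', h'⟩ := zcoord_upper h2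
    omega
  · rw [Finset.disjoint_left]
    intro p h1 h2
    have h := zcoord_middle h1
    rw [mem_union] at h2
    rcases h2 with h2 | h2 <;> obtain ⟨t', ht', h'⟩ := zcoord_upper h2 <;> omega

lemma sum_squares (m : ℕ) : 3 * ∑ j ∈ Ico 1 (m + 1), (j + 1) ^ 2 * 2 + 6 =
    (m + 1) * (m + 2) * (2 * m + 3) := by
  induction m with
  | zero => simp
  | succ n ih =>
    rw [Finset.sum_Ico_succ_top (by omega), mul_add]
    nlinarith [ih]

/-- The extra balls on a facet. -/
def extra : Finset Z3 := {(-1, 3, 1), (-1, 5, 1), (0, 4, 2)}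

/-- Their neighbours in the octahedron. -/
def base : Finset Z3 := {(0, 2, 0), (0, 4, 0), (0, 6, 0), (1, 3, 1), (1, 5, 1), (2, 4, 2)}

/-- The octahedron with three vertices cut off and three balls put on a facet. -/
def body (m : ℕ) : Finset Z3 := (trunk m).erase (0, 0, 0) ∪ extra

lemma extra_not_mem {m : ℕ} {p : Z3} (hp : p ∈ extra) : p ∉ trunk m := by
  intro h
  obtain ⟨s, hs, j, a, b, hj, ha, hb, rfl⟩ := exists_of_mem_trunk h
  simp only [extra, mem_insert, mem_singleton, pt, Prod.mk.injEq] at hp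
  rcases hs with rfl | rfl <;> omega

lemma base_subset {m : ℕ} (hm : 3 ≤ m) : base ⊆ (trunk m).erase (0, 0, 0) := by
  intro p hp
  simp only [base, mem_insert, mem_singleton] at hp
  rw [mem_erase]
  rcases hp with rfl | rfl | rfl | rfl | rfl | rfl
  · refine ⟨by decide, ?_⟩
    have h := pt_mem_trunk (m := m) (s := 1) (Or.inl rfl) (j := m) (a := 0) (b := 1)
      (by omega) (by omega) (by omega) (by omega)
    have h2 : pt m 1 m 0 1 = (0, 2, 0) := by simp [pt]
    rwa [h2] at h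
  · refine ⟨by decide, ?_⟩
    have h := pt_mem_trunk (m := m) (s := 1) (Or.inl rfl) (j := m) (a := 0) (b := 2)
      (by omega) (by omega) (by omega) (by omega)
    have h2 : pt m 1 m 0 2 = (0, 4, 0) := by simp [pt]
    rwa [h2] at h
  · refine ⟨by decide, ?_⟩
    have h := pt_mem_trunk (m := m) (s := 1) (Or.inl rfl) (j := m) (a := 0) (b := 3)
      (by omega) (by omega) (by omega) (by omega)
    have h2 : pt m 1 m 0 3 = (0, 6, 0) := by simp [pt]
    rwa [h2] at h
  · refine ⟨by decide, ?_⟩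
    obtain ⟨n, rfl⟩ : ∃ n, m = n + 1 := ⟨m - 1, by omega⟩
    have h := pt_mem_trunk (m := n + 1) (s := 1) (Or.inl rfl) (j := n) (a := 0) (b := 1)
      (by omega) (by omega) (by omega) (by omega)
    have h2 : pt (n + 1) 1 n 0 1 = (1, 3, 1) := by simp [pt]
    rwa [h2] at h
  · refine ⟨by decide, ?_⟩
    obtain ⟨n, rfl⟩ : ∃ n, m = n + 1 := ⟨m - 1, by omega⟩
    have h := pt_mem_trunk (m := n + 1) (s := 1) (Or.inl rfl) (j := n) (a := 0) (b := 2)
      (by omega) (by omega) (by omega) (by omega)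
    have h2 : pt (n + 1) 1 n 0 2 = (1, 5, 1) := by simp [pt]
    rwa [h2] at h
  · refine ⟨by decide, ?_⟩
    obtain ⟨n, rfl⟩ : ∃ n, m = n + 2 := ⟨m - 2, by omega⟩
    have h := pt_mem_trunk (m := n + 2) (s := 1) (Or.inl rfl) (j := n) (a := 0) (b := 1)
      (by omega) (by omega) (by omega) (by omega)
    have h2 : pt (n + 2) 1 n 0 1 = (2, 4, 2) := by simp [pt]
    rwa [h2] at h

lemma zero_mem {m : ℕ} (hm : 1 ≤ m) : (0, 0, 0) ∈ trunk m := by
  have h := pt_mem_trunk (m := m) (s := 1) (Or.inl rfl) (j := m) (a := 0) (b := 0)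
    (by omega) (by omega) (by omega) (by omega)
  have h2 : pt m 1 m 0 0 = (0, 0, 0) := by simp [pt]
  rwa [h2] at h

lemma lat_body {m : ℕ} {p : Z3} (hp : p ∈ body m) : Lat p := by
  rw [body, mem_union] at hp
  rcases hp with hp | hp
  · obtain ⟨s, hs, j, a, b, -, -, -, rfl⟩ := exists_of_mem_trunk (mem_of_mem_erase hp)
    exact lat_pt hs j a b
  · simp only [extra, mem_insert, mem_singleton] at hp
    rcases hp with rfl | rfl | rfl <;> constructor <;> decide

lemma card_body {m : ℕ} (hm : 1 ≤ m) : 3 * (body m).card = 2 * (m + 1) ^ 3 + (m + 1) := by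
  unfold body
  rw [card_union_of_disjoint, card_erase_of_mem (zero_mem hm), card_trunk]
  · have he : extra.card = 3 := by decide
    obtain ⟨n, rfl⟩ : ∃ n, m = n + 1 := ⟨m - 1, by omega⟩
    have h := sum_squares n
    rw [← Finset.sum_mul] at h
    rw [he]
    have h1 : 1 ≤ (n + 1 + 1) ^ 2 := Nat.one_le_pow _ _ (by omega)
    generalize ∑ j ∈ Ico 1 (n + 1), (j + 1) ^ 2 = S at h ⊢
    have h2 : (n + 1 + 1) ^ 2 + 2 * S - 1 + 3 = (n + 1 + 1) ^ 2 + 2 * S + 2 := by omega
    rw [h2]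
    nlinarith [h]
  · rw [Finset.disjoint_left]
    intro p h1 h2
    exact extra_not_mem h2 (mem_of_mem_erase h1)

end Pool.Agent.Q135.Fcc
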