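import Pool.Agent.Q135.Fcc.Octa

set_option autoImplicit false

namespace Pool.Agent.Q135.Fcc

open Finset

/-- The second and the third vertex of the triangle of type `t` with the first vertex `(j, a, b)`. -/
def off2 : ℕ → ℕ × ℕ × ℕ
  | 0 => (1, 1, 0)
  | 1 => (1, 0, 0)
  | 2 => (1, 0, 1)
  | 3 => (1, 0, 0)
  | 4 => (0, 1, 0)
  | 5 => (0, 1, 0)
  | 6 => (0, 0, 1)
  | _ => (0, 0, 1)

def off3 : ℕ → ℕ × ℕ × ℕ
  | 0 => (1, 1, 1)
  | 1 => (1, 0, 1)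
  | 2 => (1, 1, 1)
  | 3 => (1, 1, 0)
  | 4 => (1, 1, 1)
  | 5 => (1, 1, 0)
  | 6 => (1, 1, 1)
  | _ => (1, 0, 1)

def ra (t j : ℕ) : ℕ := if t = 4 ∨ t = 5 then j else j + 1
def rb (t j : ℕ) : ℕ := if t = 6 ∨ t = 7 then j else j + 1

abbrev Idx := Σ _ : ℤ × ℕ × ℕ, ℕ × ℕ

/-- The index set of the triangles. -/
def idx (m : ℕ) : Finset Idx :=
  (({1, -1} : Finset ℤ) ×ˢ (range 8 ×ˢ Ico 1 m)).sigma
    fun x => range (ra x.2.1 x.2.2) ×ˢ range (rb x.2.1 x.2.2)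

def V1 (m : ℕ) (x : Idx) : Z3 := pt m x.1.1 x.1.2.2 x.2.1 x.2.2
def V2 (m : ℕ) (x : Idx) : Z3 :=
  pt m x.1.1 (x.1.2.2 + (off2 x.1.2.1).1) (x.2.1 + (off2 x.1.2.1).2.1) (x.2.2 + (off2 x.1.2.1).2.2)
def V3 (m : ℕ) (x : Idx) : Z3 :=
  pt m x.1.1 (x.1.2.2 + (off3 x.1.2.1).1) (x.2.1 + (off3 x.1.2.1).2.1) (x.2.2 + (off3 x.1.2.1).2.2)

def tri (m : ℕ) (x : Idx) : Finset Z3 := {V1 m x, V2 m x, V3 m x}

lemma mem_idx {m : ℕ} {x : Idx} : x ∈ idx m ↔ ((x.1.1 = 1 ∨ x.1.1 = -1) ∧ x.1.2.1 < 8 ∧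
    1 ≤ x.1.2.2 ∧ x.1.2.2 < m) ∧ x.2.1 < ra x.1.2.1 x.1.2.2 ∧ x.2.2 < rb x.1.2.1 x.1.2.2 := by
  simp only [idx, mem_sigma, mem_product, mem_insert, mem_singleton, mem_range, mem_Ico]

lemma card_idx (m : ℕ) :
    (idx m).card = ∑ j ∈ Ico 1 m, 2 * (4 * (j + 1) ^ 2 + 4 * (j * (j + 1))) := by
  unfold idx
  rw [card_sigma, sum_product]
  simp only [sum_product, card_product, card_range]
  rw [Finset.sum_pair (by decide)]
  simp only [Finset.sum_range_succ, Finset.sum_range_zero, ra, rb]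
  simp only [← Finset.sum_add_distrib, zero_add]
  apply Finset.sum_congr rfl
  intro j _
  simp
  ring

lemma sq_symm (p q : Z3) : sq p q = sq q p := by
  unfold sq; ring

lemma tri_spec {m : ℕ} {x : Idx} (hx : x ∈ idx m) :
    V1 m x ∈ trunk m ∧ V2 m x ∈ trunk m ∧ V3 m x ∈ trunk m ∧
      sq (V1 m x) (V2 m x) = 4 ∧ sq (V1 m x) (V3 m x) = 4 ∧ sq (V2 m x) (V3 m x) = 4 := by
  rw [mem_idx] at hx
  obtain ⟨⟨s, t, j⟩, a, b⟩ := x
  obtain ⟨⟨hs, ht, hj, hjm⟩, ha, hb⟩ := hx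
  simp only at hs ht hj hjm ha hb
  unfold V1 V2 V3
  simp only
  have key : ∀ c d e : ℕ, 1 ≤ c → c ≤ m → d ≤ c → e ≤ c → pt m s c d e ∈ trunk m :=
    fun c d e h1 h2 h3 h4 => pt_mem_trunk hs h1 h2 h3 h4
  refine ⟨?_, ?_, ?_, ?_⟩
  · apply key <;> interval_cases t <;> simp [ra, rb] at ha hb ⊢ <;> omega
  · apply key <;> interval_cases t <;> simp [ra, rb, off2] at ha hb ⊢ <;> omega
  · apply key <;> interval_cases t <;> simp [ra, rb, off3] at ha hb ⊢ <;> omega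
  · have hs2 : s ^ 2 = 1 := by rcases hs with rfl | rfl <;> norm_num
    interval_cases t <;> simp only [off2, off3, pt, sq] <;> push_cast <;>
      refine ⟨?_, ?_, ?_⟩ <;> first | ring1 | linear_combination 2 * hs2

lemma ne_of_sq {p q : Z3} (h : sq p q = 4) : p ≠ q := by
  rintro rfl
  simp [sq] at h

lemma sum_tri {m : ℕ} {x : Idx} (hx : x ∈ idx m) :
    (tri m x).sum id = V1 m x + V2 m x + V3 m x := by
  obtain ⟨-, -, -, h12, h13, h23⟩ := tri_spec hx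
  unfold tri
  rw [Finset.sum_insert, Finset.sum_pair (ne_of_sq h23)]
  · simp only [id, add_assoc]
  · simp only [mem_insert, mem_singleton, not_or]
    exact ⟨ne_of_sq h12, ne_of_sq h13⟩

lemma card_tri {m : ℕ} {x : Idx} (hx : x ∈ idx m) : (tri m x).card = 3 := by
  obtain ⟨-, -, -, h12, h13, h23⟩ := tri_spec hx
  exact Finset.card_eq_three.2 ⟨_, _, _, ne_of_sq h12, ne_of_sq h13, ne_of_sq h23, rfl⟩

lemma tri_adj {m : ℕ} {x : Idx} (hx : x ∈ idx m) :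
    ∀ p ∈ tri m x, ∀ q ∈ tri m x, p ≠ q → sq p q = 4 := by
  obtain ⟨-, -, -, h12, h13, h23⟩ := tri_spec hx
  have h21 := h12; have h31 := h13; have h32 := h23
  rw [sq_symm] at h21 h31 h32
  intro p hp q hq hpq
  simp only [tri, mem_insert, mem_singleton] at hp hq
  rcases hp with rfl | rfl | rfl <;> rcases hq with rfl | rfl | rfl <;>
    first | exact absurd rfl hpq | assumption

lemma tri_subset {m : ℕ} {x : Idx} (hx : x ∈ idx m) : tri m x ⊆ trunk m := by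
  obtain ⟨h1, h2, h3, -, -, -⟩ := tri_spec hx
  intro p hp
  simp only [tri, mem_insert, mem_singleton] at hp
  rcases hp with rfl | rfl | rfl <;> assumption

lemma tri_inj {m : ℕ} {x y : Idx} (hx : x ∈ idx m) (hy : y ∈ idx m)
    (h : V1 m x + V2 m x + V3 m x = V1 m y + V2 m y + V3 m y) : x = y := by
  rw [mem_idx] at hx hy
  obtain ⟨⟨s, t, j⟩, a, b⟩ := x
  obtain ⟨⟨s', t', j'⟩, a', b'⟩ := y
  obtain ⟨⟨hs, ht, hj, hjm⟩, ha, hb⟩ := hx
  obtain ⟨⟨hs', ht', hj', hjm'⟩, ha', hb'⟩ := hy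
  simp only at hs ht hj hjm ha hb hs' ht' hj' hjm' ha' hb'
  suffices hh : s = s' ∧ t = t' ∧ j = j' ∧ a = a' ∧ b = b' by
    obtain ⟨rfl, rfl, rfl, rfl, rfl⟩ := hh; rfl
  unfold V1 V2 V3 at h
  simp only at h
  clear ha hb ha' hb'
  rcases hs with rfl | rfl <;> rcases hs' with rfl | rfl <;>
  interval_cases t <;> interval_cases t' <;>
  simp [off2, off3, pt] at h ⊢ <;> omega

end Pool.Agent.Q135.Fcc
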